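import Pool.Agent.Q7.CF.Stm
import Pool.Agent.Q7.CE.Stm
import Pool.Agent.Q7.LK.Stm2

set_option autoImplicit false
set_option linter.unusedSectionVars false

/-!
# Project CF (helper7), job FLOC: `AF` has the properties of `Loc` (helper151, adapted from the file
`Pool/Agent/Q211/CJ/JLOC.lean` of helper211)
-/

open NumberField IsDedekindDomain Polynomial
open Pool.Agent.Q7.CF
open Pool.Agent.Q7.CJ (Nr)

namespace Pool.Agent.Q151.CF

theorem odd_p (p r : ℕ) [hp : Fact p.Prime] [hr : Ok p r] : p ≠ 2 := by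
  have h1 := hr.h1
  have h2 := hr.h2
  omega

section Tw

variable {p : ℕ} [hp : Fact p.Prime] {K : Type} [Field K] [CharZero K]

theorem tw_eq (D ν : K) :
    (fF p (D * ν ^ p)).eval₂ ((aeval (algebraMap K (RF p D) ν * XF p D) : K[X] →ₐ[K] RF p D) : K[X] →+* RF p D)
      (algebraMap K (RF p D) ν * YF p D) = 0 := by
  rw [eval₂_fF]
  have h1 : ((aeval (algebraMap K (RF p D) ν * XF p D) : K[X] →ₐ[K] RF p D) : K[X] →+* RF p D)
      (C (D * ν ^ p) - X ^ p) =
      algebraMap K (RF p D) (D * ν ^ p) - (algebraMap K (RF p D) ν * XF p D) ^ p := by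
    rw [map_sub, map_pow]
    simp only [AlgHom.coe_toRingHom, aeval_X, aeval_C]
  rw [h1, map_mul, map_pow, ← fermat_eq p D]
  ring

/-- the homomorphism `X ↦ ν X`, `Y ↦ ν Y` -/
noncomputable def twF (D ν : K) : RF p (D * ν ^ p) →ₐ[K] RF p D :=
  AdjoinRoot.liftAlgHom (fF p (D * ν ^ p)) (aeval (algebraMap K (RF p D) ν * XF p D))
    (algebraMap K (RF p D) ν * YF p D) (tw_eq D ν)

theorem twF_YF (D ν : K) : twF (p := p) D ν (YF p _) = algebraMap K (RF p D) ν * YF p D := by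
  unfold twF YF
  exact AdjoinRoot.liftAlgHom_root _ _ _ _

theorem twF_of (D ν : K) (g : K[X]) :
    twF (p := p) D ν (AdjoinRoot.of _ g) = aeval (algebraMap K (RF p D) ν * XF p D) g := by
  unfold twF
  exact AdjoinRoot.liftAlgHom_of _ _ _ _ _

theorem twF_XF (D ν : K) : twF (p := p) D ν (XF p _) = algebraMap K (RF p D) ν * XF p D := by
  unfold XF
  rw [twF_of, aeval_X]
  rfl

theorem twF_mon (D ν : K) (a b : ℕ) :
    twF (p := p) D ν (XF p _ ^ a * YF p _ ^ b) =
      algebraMap K (RF p D) (ν ^ (a + b)) * (XF p D ^ a * YF p D ^ b) := by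
  rw [map_mul, map_pow, map_pow, twF_XF, twF_YF, map_pow]
  ring

theorem twF_mem (r : ℕ) (D ν : K) (z : RF p (D * ν ^ p)) (hz : z ∈ BQ p r (D * ν ^ p)) :
    twF (p := p) D ν z ∈ BQ p r D := by
  unfold BQ at hz
  induction hz using Algebra.adjoin_induction with
  | mem x hx =>
    obtain ⟨a, b, hab, rfl⟩ := hx
    rw [twF_mon]
    exact (BQ p r D).mul_mem ((BQ p r D).algebraMap_mem _) (mons_mem p r D hab)
  | algebraMap c =>
    rw [AlgHom.commutes]
    exact (BQ p r D).algebraMap_mem _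
  | add x y _ _ hx hy => rw [map_add]; exact (BQ p r D).add_mem hx hy
  | mul x y _ _ hx hy => rw [map_mul]; exact (BQ p r D).mul_mem hx hy

/-- its restriction to the coordinate rings of the quotient curves -/
noncomputable def tw (r : ℕ) (D ν : K) : BQ p r (D * ν ^ p) →ₐ[K] BQ p r D :=
  AlgHom.codRestrict ((twF (p := p) D ν).comp (BQ p r (D * ν ^ p)).val) (BQ p r D)
    (fun z => twF_mem r D ν z.1 z.2)

theorem tw_val (r : ℕ) (D ν : K) (z : BQ p r (D * ν ^ p)) :
    (tw r D ν z : RF p D) = twF (p := p) D ν (z : RF p (D * ν ^ p)) := rfl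

theorem tw_uu (r : ℕ) (D ν : K) :
    tw (p := p) r D ν (uu p r _) = algebraMap K (BQ p r D) (ν ^ p) * uu p r D := by
  refine Subtype.ext ?_
  rw [tw_val]
  have h := twF_mon (p := p) D ν p 0
  rw [pow_zero, mul_one, pow_zero, mul_one, add_zero] at h
  exact h

theorem tw_surj (r : ℕ) (D ν : K) (hν : ν ≠ 0) : Function.Surjective (tw (p := p) r D ν) := by
  have key : ∀ z : RF p D, z ∈ BQ p r D → ∃ y : BQ p r (D * ν ^ p), twF (p := p) D ν (y : RF p _) = z := by
    intro z hz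
    unfold BQ at hz
    induction hz using Algebra.adjoin_induction with
    | mem x hx =>
      obtain ⟨a, b, hab, rfl⟩ := hx
      refine ⟨algebraMap K _ ((ν ^ (a + b))⁻¹) * ⟨XF p _ ^ a * YF p _ ^ b, mons_mem p r _ hab⟩, ?_⟩
      have h1 : ((algebraMap K (BQ p r (D * ν ^ p)) ((ν ^ (a + b))⁻¹) *
          ⟨XF p _ ^ a * YF p _ ^ b, mons_mem p r _ hab⟩ : BQ p r (D * ν ^ p)) : RF p (D * ν ^ p)) =
          algebraMap K (RF p (D * ν ^ p)) ((ν ^ (a + b))⁻¹) * (XF p _ ^ a * YF p _ ^ b) := rfl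
      rw [h1, map_mul, AlgHom.commutes, twF_mon, ← mul_assoc, ← map_mul,
        inv_mul_cancel₀ (pow_ne_zero _ hν), map_one, one_mul]
    | algebraMap c =>
      refine ⟨algebraMap K _ c, ?_⟩
      have h1 : ((algebraMap K (BQ p r (D * ν ^ p)) c : BQ p r (D * ν ^ p)) : RF p (D * ν ^ p)) =
          algebraMap K (RF p (D * ν ^ p)) c := rfl
      rw [h1, AlgHom.commutes]
    | add x y _ _ hx hy =>
      obtain ⟨x', hx'⟩ := hx
      obtain ⟨y', hy'⟩ := hy
      exact ⟨x' + y', by rw [Subalgebra.coe_add, map_add, hx', hy']⟩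
    | mul x y _ _ hx hy =>
      obtain ⟨x', hx'⟩ := hx
      obtain ⟨y', hy'⟩ := hy
      exact ⟨x' * y', by rw [Subalgebra.coe_mul, map_mul, hx', hy']⟩
  intro z
  obtain ⟨y, hy⟩ := key z.1 z.2
  exact ⟨y, Subtype.ext hy⟩

/-- twisting by a `p`-th power -/
theorem cj_tw (r : ℕ) (D ν a : K) (hν : ν ≠ 0) (h : Cj p r D a) : Cj p r (D * ν ^ p) a := by
  obtain ⟨ha, I, hI, s, hs, hIs⟩ := h
  have hsur : Function.Surjective ((Ideal.Quotient.mkₐ K I).comp (tw (p := p) r D ν)) :=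
    (Ideal.Quotient.mkₐ_surjective K I).comp (tw_surj r D ν hν)
  refine ⟨ha, RingHom.ker ((Ideal.Quotient.mkₐ K I).comp (tw (p := p) r D ν)), ?_,
    s * ν ^ Module.finrank K (BQ p r D ⧸ I), mul_ne_zero hs (pow_ne_zero _ hν), ?_⟩
  · obtain ⟨b, hb, hb0⟩ := Submodule.exists_mem_ne_zero_of_ne_bot hI
    obtain ⟨c, hc⟩ := tw_surj r D ν hν b
    intro h1
    have h2 : c ∈ RingHom.ker ((Ideal.Quotient.mkₐ K I).comp (tw (p := p) r D ν)) := by
      rw [RingHom.mem_ker]
      show Ideal.Quotient.mk I (tw (p := p) r D ν c) = 0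
      rw [hc]
      exact Ideal.Quotient.eq_zero_iff_mem.2 hb
    rw [h1, Ideal.mem_bot] at h2
    rw [h2, map_zero] at hc
    exact hb0 hc.symm
  · unfold nm
    rw [← Algebra.norm_eq_of_algEquiv (Ideal.quotientKerAlgEquivOfSurjective hsur)]
    have h3 : Ideal.quotientKerAlgEquivOfSurjective hsur (Ideal.Quotient.mk _ (uu p r (D * ν ^ p))) =
        algebraMap K (BQ p r D ⧸ I) (ν ^ p) * Ideal.Quotient.mk I (uu p r D) := by
      show Ideal.Quotient.mk I (tw (p := p) r D ν (uu p r _)) = _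
      rw [tw_uu, map_mul]
      rfl
    rw [h3, map_mul, Algebra.norm_algebraMap]
    have h4 : Algebra.norm K (Ideal.Quotient.mk I (uu p r D)) = a * s ^ p := hIs
    rw [h4]
    ring

end Tw

section Loc

variable {p r : ℕ} [hp : Fact p.Prime] [hr : Ok p r] {K : Type} [Field K] [CharZero K]

/-- products with `p`-th powers -/
theorem cj_mul (D a z : K) (hz : z ≠ 0) (h : Cj p r D a) : Cj p r D (a * z ^ p) := by
  obtain ⟨ha, I, hI, s, hs, hIs⟩ := h
  refine ⟨mul_ne_zero ha (pow_ne_zero _ hz), I, hI, s / z, div_ne_zero hs hz, ?_⟩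
  rw [hIs, div_pow]
  field_simp

/-- products with `D` -/
theorem cj_clo (hDED : S_DED) (hNMM : S_NMM) (D a : K) (hD : D ≠ 0) (h : Cj p r D a) :
    Cj p r D (a * D) := by
  obtain ⟨hded, -⟩ := hDED p r K D hD
  obtain ⟨hmul, -, -, -, ht2, -, -, -, -, ht20, -⟩ := hNMM p r K D hD
  obtain ⟨ha, I, hI, s, hs, hIs⟩ := h
  refine ⟨mul_ne_zero ha hD, I * t2 p r D, mul_ne_zero hI ht20, s, hs, ?_⟩
  rw [(hmul I _ hI ht20).1, ht2, hIs]
  ring

/-- powers -/
theorem cj_pow (hDED : S_DED) (hNMM : S_NMM) (D a : K) (hD : D ≠ 0) (h : Cj p r D a) (n : ℕ) :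
    Cj p r D (a ^ n) := by
  obtain ⟨hded, -⟩ := hDED p r K D hD
  obtain ⟨hmul, htop, -⟩ := hNMM p r K D hD
  obtain ⟨ha, I, hI, s, hs, hIs⟩ := h
  refine ⟨pow_ne_zero _ ha, I ^ n, pow_ne_zero _ hI, s ^ n, pow_ne_zero _ hs, ?_⟩
  induction n with
  | zero =>
    rw [pow_zero, pow_zero, pow_zero, one_pow, mul_one, Ideal.one_eq_top]
    exact htop
  | succ n ih =>
    rw [pow_succ, (hmul _ _ (pow_ne_zero _ hI) hI).1, ih, hIs]
    ring

end Loc

section Main

open Pool.Agent.Q7.LK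

variable {F : Type} [Field F] [NumberField F]

theorem coe_eq (v : HeightOneSpectrum (𝓞 F)) (a : F) :
    (a : v.adicCompletion F) = algebraMap F (v.adicCompletion F) a := by
  rw [HeightOneSpectrum.algebraMap_adicCompletion]
  rfl

theorem coe_ne (v : HeightOneSpectrum (𝓞 F)) {a : F} (ha : a ≠ 0) : (a : v.adicCompletion F) ≠ 0 := by
  rw [coe_eq]
  exact (_root_.map_ne_zero _).2 ha

theorem ne_coe (v : HeightOneSpectrum (𝓞 F)) {a : F} (ha : (a : v.adicCompletion F) ≠ 0) : a ≠ 0 := by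
  rw [coe_eq] at ha
  exact (_root_.map_ne_zero _).1 ha

theorem coe_mul (v : HeightOneSpectrum (𝓞 F)) (a b : F) :
    ((a * b : F) : v.adicCompletion F) = (a : v.adicCompletion F) * (b : v.adicCompletion F) := by
  rw [coe_eq, coe_eq, coe_eq, map_mul]

theorem coe_pow (v : HeightOneSpectrum (𝓞 F)) (a : F) (n : ℕ) :
    ((a ^ n : F) : v.adicCompletion F) = (a : v.adicCompletion F) ^ n := by
  rw [coe_eq, coe_eq, map_pow]

theorem cz (v : HeightOneSpectrum (𝓞 F)) : CharZero (v.adicCompletion F) :=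
  charZero_of_injective_algebraMap (algebraMap F (v.adicCompletion F)).injective

theorem floc : S_BAS → S_CPL → S_NRM → S_HS2 → Pool.Agent.Q7.CE.S_ISO → S_BSC → S_DED → S_NMM →
    S_ORTH → S_FLOC := by
  intro hBAS hCPL hNRM hHS2 hISO hBSC hDED hNMM hORTH p r hp hr F _ _ ζ hζ
  have hp2' : p ≠ 2 := odd_p p r
  refine ⟨?_, ?_, ?_, ?_, ?_, ?_, ?_⟩
  · intro v D a _ _ h
    exact ne_coe v h.1
  · intro v D a b _ hD h hb
    obtain ⟨hb0, s, hs⟩ := (hCPL p F v b).1 hb
    have hs0 : s ≠ 0 := by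
      intro h1
      rw [h1, zero_pow hp.out.ne_zero] at hs
      exact coe_ne v hb0 hs
    have := cz v
    show Cj p r _ _
    rw [coe_mul, hs]
    exact cj_mul _ _ _ hs0 h
  · intro v D n a _ hD hn h
    obtain ⟨hb0, s, hs⟩ := (hCPL p F v n).1 hn
    have hs0 : s ≠ 0 := by
      intro h1
      rw [h1, zero_pow hp.out.ne_zero] at hs
      exact coe_ne v hb0 hs
    have := cz v
    show Cj p r _ _
    rw [coe_mul, hs]
    exact cj_tw r _ _ _ hs0 h
  · intro v D a _ hD h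
    have := cz v
    show Cj p r _ _
    rw [coe_mul]
    exact cj_clo hDED hNMM _ _ (coe_ne v hD) h
  · intro v D a _ hD h n
    have := cz v
    show Cj p r _ _
    rw [coe_pow]
    exact cj_pow hDED hNMM _ _ (coe_ne v hD) h n
  · intro v D _ hD B hB hB2
    obtain ⟨t, h1, h2, h3, h4, h5, h6⟩ := hHS2 p hp2' F ζ hζ
    have ht : Hilb p ζ t := ⟨h1, h2, h3, h4, h5, h6⟩
    have hne : ∀ b ∈ B, b ≠ 0 := fun b hb => ne_coe v (hB b hb).1
    have := cz v
    have hζv : IsPrimitiveRoot (algebraMap F (v.adicCompletion F) ζ) p :=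
      hζ.map_of_injective (algebraMap F (v.adicCompletion F)).injective
    have h := hISO p hp2' F ζ hζ t ht v B hne hB2 (by
      intro b hb b' hb'
      by_cases hl : Lpw p v b'
      · rw [h1 v b b' (hne b hb) (hne b' hb'), h4 v b' b hl (hne b hb), neg_zero]
      · exact hNRM p hp2' F ζ hζ t ht v b' (hne b' hb') hl b (hne b hb)
          (hORTH p r (v.adicCompletion F) _ hζv _ _ _ (coe_ne v hD) (hB b' hb') (hB b hb)))
    have h7 : (2 + dv p v) / 2 = dv p v / 2 + 1 := by omega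
    rw [h7] at h
    exact h
  · intro v hv
    unfold dv
    rw [if_neg hv]

end Main

end Pool.Agent.Q151.CF
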