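import Pool.Agent.Q7.CF.Stm
import Pool.Agent.Q211.CJ.JTRIA

set_option autoImplicit false
set_option linter.unusedSectionVars false

/-!
# Project CF (helper7), job FTRI: triviality (helper151, adapted from the file
`Pool/Agent/Q211/CJ/JTRI.lean` of helper211)
-/

open NumberField IsDedekindDomain Polynomial nonZeroDivisors
open Pool.Agent.Q7.CF

namespace Pool.Agent.Q151.CF.Tri

section Sg

variable {p : ℕ} [hp : Fact p.Prime] {r : ℕ} {L : Type} [Field L] [CharZero L] {D : L}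

theorem sF_comp (ζ₁ ζ₂ : L) (h₁ : ζ₁ ^ p = 1) (h₂ : ζ₂ ^ p = 1) (h : (ζ₁ * ζ₂) ^ p = 1) :
    (sF p D ζ₁ h₁).comp (sF p D ζ₂ h₂) = sF p D (ζ₁ * ζ₂) h := by
  refine AdjoinRoot.algHom_ext ?_
  show sF p D ζ₁ h₁ (sF p D ζ₂ h₂ (YF p D)) = sF p D (ζ₁ * ζ₂) h (YF p D)
  rw [sF_YF, sF_YF, map_mul, sF_YF]
  have h1 : sF p D ζ₁ h₁ (algebraMap L (RF p D) ζ₂) = algebraMap L (RF p D) ζ₂ := sF_of p D ζ₁ h₁ (C ζ₂)
  rw [h1, map_mul]
  ring

theorem sF_one (h : (1 : L) ^ p = 1) : sF p D 1 h = AlgHom.id _ _ := by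
  refine AdjoinRoot.algHom_ext ?_
  show sF p D 1 h (YF p D) = YF p D
  rw [sF_YF, map_one, one_mul]

theorem sg_comp (ζ₁ ζ₂ : L) (h₁ : ζ₁ ^ p = 1) (h₂ : ζ₂ ^ p = 1) (h : (ζ₁ * ζ₂) ^ p = 1) :
    (sg p r D ζ₁ h₁).comp (sg p r D ζ₂ h₂) = sg p r D (ζ₁ * ζ₂) h := by
  refine RingHom.ext fun z => Subtype.ext ?_
  have h1 := congrArg (fun f => f (z : RF p D)) (sF_comp (D := D) ζ₁ ζ₂ h₁ h₂ h)
  exact h1

theorem sg_one (h : (1 : L) ^ p = 1) : sg p r D 1 h = RingHom.id _ := by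
  refine RingHom.ext fun z => Subtype.ext ?_
  have h1 := congrArg (fun f => f (z : RF p D)) (sF_one (D := D) h)
  exact h1

theorem sg_congr {ζ₁ ζ₂ : L} (h : ζ₁ = ζ₂) (h₁ : ζ₁ ^ p = 1) (h₂ : ζ₂ ^ p = 1) :
    sg p r D ζ₁ h₁ = sg p r D ζ₂ h₂ := by
  subst h
  rfl

theorem pow_pred {ζ : L} (h : ζ ^ p = 1) : (ζ ^ (p - 1)) ^ p = 1 := by
  rw [← pow_mul, mul_comm, pow_mul, h, one_pow]

theorem sg_inv (ζ : L) (h : ζ ^ p = 1) :
    (sg p r D (ζ ^ (p - 1)) (pow_pred h)).comp (sg p r D ζ h) = RingHom.id _ := by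
  have h2 : ζ ^ (p - 1) * ζ = 1 := by
    rw [← pow_succ, Nat.sub_add_cancel hp.out.one_le, h]
  rw [sg_comp _ _ _ _ (by rw [h2, one_pow]), sg_congr h2 _ (one_pow p), sg_one]

theorem sg_inv' (ζ : L) (h : ζ ^ p = 1) :
    (sg p r D ζ h).comp (sg p r D (ζ ^ (p - 1)) (pow_pred h)) = RingHom.id _ := by
  have h2 : ζ * ζ ^ (p - 1) = 1 := by
    rw [← pow_succ', Nat.sub_add_cancel hp.out.one_le, h]
  rw [sg_comp _ _ _ _ (by rw [h2, one_pow]), sg_congr h2 _ (one_pow p), sg_one]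

theorem sg_inj (ζ : L) (h : ζ ^ p = 1) : Function.Injective (sg p r D ζ h) := by
  intro a b hab
  have h4 := congrArg (fun f => f a) (sg_inv (r := r) (D := D) ζ h)
  have h5 := congrArg (fun f => f b) (sg_inv (r := r) (D := D) ζ h)
  simp only [RingHom.comp_apply, RingHom.id_apply] at h4 h5
  rw [← h4, ← h5, hab]

theorem sgi_zero (ζ : L) (h : ζ ^ p = 1) : sgi p r D ζ h 0 = RingHom.id _ := by
  unfold sgi
  rw [sg_congr (pow_zero ζ) _ (one_pow p), sg_one]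

theorem sgi_succ (ζ : L) (h : ζ ^ p = 1) (i : ℕ) :
    sgi p r D ζ h (i + 1) = (sg p r D ζ h).comp (sgi p r D ζ h i) := by
  unfold sgi
  rw [sg_comp _ _ _ _ (by rw [mul_pow, h, one_mul, ← pow_mul, mul_comm, pow_mul, h, one_pow])]
  exact sg_congr (pow_succ' ζ i) _ _

theorem sg_t1 (ζ : L) (h : ζ ^ p = 1) (z : BQ p r D) (hz : z ∈ t1 p r D) :
    sg p r D ζ h z ∈ t1 p r D := by
  have h1 : (z : RF p D) ∈ Ideal.span {XF p D} := hz
  obtain ⟨y, hy⟩ := Ideal.mem_span_singleton.1 h1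
  show ((sg p r D ζ h z : BQ p r D) : RF p D) ∈ Ideal.span {XF p D}
  rw [sg_val, hy, map_mul, sF_XF]
  exact Ideal.mem_span_singleton.2 (dvd_mul_right _ _)

theorem t1_sg (ζ : L) (h : ζ ^ p = 1) : (t1 p r D).map (sg p r D ζ h) = t1 p r D := by
  apply le_antisymm
  · rw [Ideal.map_le_iff_le_comap]
    intro z hz
    exact sg_t1 ζ h z hz
  · intro z hz
    have h1 := sg_t1 (r := r) (ζ ^ (p - 1)) (pow_pred h) z hz
    have h2 := Ideal.mem_map_of_mem (sg p r D ζ h) h1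
    have h3 := congrArg (fun f => f z) (sg_inv' (r := r) (D := D) ζ h)
    simp only [RingHom.comp_apply, RingHom.id_apply] at h3
    rw [h3] at h2
    exact h2

theorem map_ne (ζ : L) (h : ζ ^ p = 1) {I : Ideal (BQ p r D)} (hI : I ≠ ⊥) :
    I.map (sg p r D ζ h) ≠ ⊥ := by
  rw [Ne, Ideal.map_eq_bot_iff_of_injective (sg_inj ζ h)]
  exact hI

end Sg

section Cl

variable {B : Type} [CommRing B] [IsDedekindDomain B]

/-- the class of an ideal -/
noncomputable def cl (I : Ideal B) (hI : I ≠ ⊥) : ClassGroup B :=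
  ClassGroup.mk0 ⟨I, mem_nonZeroDivisors_iff_ne_zero.2 hI⟩

theorem cl_mul (I J : Ideal B) (hI : I ≠ ⊥) (hJ : J ≠ ⊥) (h : I * J ≠ ⊥) :
    cl (I * J) h = cl I hI * cl J hJ := by
  unfold cl
  rw [← map_mul]
  rfl

theorem cl_pow (I : Ideal B) (hI : I ≠ ⊥) (n : ℕ) (h : I ^ n ≠ ⊥) : cl (I ^ n) h = cl I hI ^ n := by
  unfold cl
  rw [← map_pow]
  rfl

theorem sim_iff (I J : Ideal B) (hI : I ≠ ⊥) (hJ : J ≠ ⊥) : Sim I J ↔ cl I hI = cl J hJ := by
  unfold cl Sim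
  rw [ClassGroup.mk0_eq_mk0_iff]
  constructor
  · rintro ⟨a, b, ha, hb, h⟩
    exact ⟨a, b, ha, hb, h⟩
  · rintro ⟨a, b, ha, hb, h⟩
    exact ⟨a, b, ha, hb, h⟩

theorem cl_surj (a : ClassGroup B) : ∃ (I : Ideal B) (hI : I ≠ ⊥), cl I hI = a := by
  obtain ⟨⟨I, hI⟩, h⟩ := ClassGroup.mk0_surjective a
  exact ⟨I, mem_nonZeroDivisors_iff_ne_zero.1 hI, h⟩

theorem cl_span (b : B) (h : Ideal.span {b} ≠ ⊥) : cl (Ideal.span {b}) h = 1 := by
  unfold cl
  rw [ClassGroup.mk0_eq_one_iff]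
  exact ⟨⟨b, rfl⟩⟩

theorem cl_congr {I J : Ideal B} (h : I = J) (hI : I ≠ ⊥) (hJ : J ≠ ⊥) : cl I hI = cl J hJ := by
  subst h
  rfl

theorem grp_lem {A : Type} [CommGroup A] (t u a g v : A) (h : a * u * g = v) (h2 : t * u = 1) :
    t * v = a * g := by
  rw [← h, mul_comm a u, mul_assoc u, ← mul_assoc t, h2, one_mul]

theorem cl_prod (f : ℕ → Ideal B) (hf : ∀ i, f i ≠ ⊥) (n : ℕ) :
    ∃ h : ∏ i ∈ Finset.range n, f i ≠ ⊥,
      ∏ i ∈ Finset.range n, cl (f i) (hf i) = cl (∏ i ∈ Finset.range n, f i) h := by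
  induction n with
  | zero =>
    have h1 : ∏ i ∈ Finset.range 0, f i = ⊤ := by
      rw [Finset.range_zero, Finset.prod_empty, Ideal.one_eq_top]
    refine ⟨by rw [h1]; exact top_ne_bot, ?_⟩
    rw [cl_congr h1 _ top_ne_bot, Finset.range_zero, Finset.prod_empty]
    symm
    unfold cl
    rw [ClassGroup.mk0_eq_one_iff]
    exact ⟨⟨1, Ideal.span_singleton_one.symm⟩⟩
  | succ n ih =>
    obtain ⟨h2, h3⟩ := ih
    have h4 : (∏ i ∈ Finset.range n, f i) * f n ≠ ⊥ := mul_ne_zero h2 (hf n)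
    have h5 : ∏ i ∈ Finset.range (n + 1), f i = (∏ i ∈ Finset.range n, f i) * f n :=
      Finset.prod_range_succ _ _
    refine ⟨by rw [h5]; exact h4, ?_⟩
    rw [cl_congr h5 _ h4, Finset.prod_range_succ, h3, cl_mul _ _ h2 (hf n) h4]

/-- the action of an endomorphism on the class group -/
theorem ex_g (s : B →+* B) (hs : Function.Injective s)
    (hm : ∀ I : Ideal B, I ≠ ⊥ → I.map s ≠ ⊥) : ∃ g : ClassGroup B →* ClassGroup B,
    ∀ (I : Ideal B) (hI : I ≠ ⊥), g (cl I hI) = cl (I.map s) (hm I hI) := by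
  classical
  choose F hF hcl using cl_surj (B := B)
  have key : ∀ (I J : Ideal B) (hI : I ≠ ⊥) (hJ : J ≠ ⊥), cl I hI = cl J hJ →
      cl (I.map s) (hm I hI) = cl (J.map s) (hm J hJ) := by
    intro I J hI hJ hIJ
    rw [← sim_iff] at hIJ ⊢
    obtain ⟨a, b, ha, hb, hab⟩ := hIJ
    refine ⟨s a, s b, ?_, ?_, ?_⟩
    · intro h0
      exact ha (hs (by rw [h0, map_zero]))
    · intro h0
      exact hb (hs (by rw [h0, map_zero]))
    · have h1 := congrArg (Ideal.map s) hab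
      rw [Ideal.map_mul, Ideal.map_mul, Ideal.map_span, Ideal.map_span, Set.image_singleton,
        Set.image_singleton] at h1
      exact h1
  refine ⟨⟨⟨fun a => cl ((F a).map s) (hm _ (hF a)), ?_⟩, ?_⟩, ?_⟩
  · have h1 : cl (F 1) (hF 1) = cl (⊤ : Ideal B) top_ne_bot := by
      rw [hcl]
      symm
      unfold cl
      rw [ClassGroup.mk0_eq_one_iff]
      exact ⟨⟨1, Ideal.span_singleton_one.symm⟩⟩
    rw [key _ _ _ _ h1]
    unfold cl
    rw [ClassGroup.mk0_eq_one_iff]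
    show ((⊤ : Ideal B).map s).IsPrincipal
    rw [Ideal.map_top]
    exact ⟨⟨1, Ideal.span_singleton_one.symm⟩⟩
  · intro a b
    have h0 : F a * F b ≠ ⊥ := mul_ne_zero (hF a) (hF b)
    have h1 : cl (F (a * b)) (hF (a * b)) = cl (F a * F b) h0 := by
      rw [cl_mul _ _ (hF a) (hF b), hcl, hcl, hcl]
    show cl ((F (a * b)).map s) (hm _ (hF (a * b))) =
      cl ((F a).map s) (hm _ (hF a)) * cl ((F b).map s) (hm _ (hF b))
    rw [key _ _ _ _ h1, ← cl_mul _ _ _ _ (mul_ne_zero (hm _ (hF a)) (hm _ (hF b)))]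
    exact cl_congr (Ideal.map_mul _ _ _) _ _
  · intro I hI
    show cl ((F (cl I hI)).map s) (hm _ (hF (cl I hI))) = _
    exact key _ _ _ _ (hcl _)

end Cl

section Main

open Pool.Agent.Q7.LK

variable {F : Type} [Field F] [NumberField F]

theorem ftri : S_DED → S_NMM → S_MV → S_BC → S_NI → S_INJ → S_FCOND → S_FTRI := by
  intro hDED hNMM hMV hBC hNI hINJ hJC p r hp hr F _ _ ζ hζ D hD hbad I₀ hI₀
  have hζ1 : ζ ^ p = 1 := hζ.pow_eq_one
  have hr1 := hr.h1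
  have hr2 := hr.h2
  have hp2 : p ≠ 2 := by omega
  obtain ⟨hded, -⟩ := hDED p r F D hD
  obtain ⟨hmul, htop, -, hzero, ht2, -, -, -, ht10, ht20, -, h12, h1p, h2p, -⟩ := hNMM p r F D hD
  obtain ⟨hmv, -⟩ := hMV p r F D hD
  obtain ⟨g, hg⟩ := ex_g (sg p r D ζ hζ1) (sg_inj ζ hζ1) (fun I hI => map_ne ζ hζ1 hI)
  obtain ⟨T, hT⟩ : ∃ T, T = cl (t1 p r D) ht10 := ⟨_, rfl⟩
  obtain ⟨T2, hT2⟩ : ∃ T2, T2 = cl (t2 p r D) ht20 := ⟨_, rfl⟩
  -- the class of the second point is a power of the class of the first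
  have hTT : T * T2 ^ r = 1 := by
    have ht2r : t2 p r D ^ r ≠ ⊥ := pow_ne_zero _ ht20
    have h0 : t1 p r D * t2 p r D ^ r ≠ ⊥ := mul_ne_zero ht10 ht2r
    rw [hT, hT2, ← cl_pow _ ht20 r ht2r, ← cl_mul _ _ ht10 ht2r h0]
    rw [cl_congr h12 h0 (by rw [← h12]; exact h0)]
    exact cl_span _ _
  have hT2p : T2 ^ p = 1 := by
    have ht2p : t2 p r D ^ p ≠ ⊥ := pow_ne_zero _ ht20
    rw [hT2, ← cl_pow _ ht20 p ht2p, cl_congr h2p ht2p (by rw [← h2p]; exact ht2p)]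
    exact cl_span _ _
  obtain ⟨m, hm⟩ : ∃ m : ℕ, T ^ m * T2 = 1 := by
    have hcop : Nat.Coprime r p :=
      ((Nat.coprime_of_lt_prime (by omega) (by omega) hp.out).symm)
    obtain ⟨m, -, hm⟩ := Nat.exists_mul_mod_eq_one_of_coprime hcop hp.out.one_lt
    refine ⟨m, ?_⟩
    have h1 : T2 = (T2 ^ r) ^ m := by
      rw [← pow_mul]
      conv_rhs => rw [← Nat.div_add_mod (r * m) p, hm, pow_add, pow_mul, hT2p, one_pow, one_mul,
        pow_one]
    conv_lhs => rw [h1]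
    rw [← mul_pow, hTT, one_pow]
  have hgT : g T = T := by
    rw [hT, hg]
    exact cl_congr (t1_sg ζ hζ1) _ _
  -- the first part
  have hA : ∀ a : ClassGroup (BQ p r D), ∃ (j : ℕ) (b : ClassGroup (BQ p r D)),
      a = T ^ j * (b / g b) := by
    intro a
    obtain ⟨I, hI, rfl⟩ := cl_surj a
    obtain ⟨J, hJ, hIJ, hJ1, -⟩ := hmv I hI
    have hn0 : nm p r D J ≠ 0 := by
      intro h
      exact hJ1 ((hzero J hJ).1.1 h)
    have hAJ : ∀ v : HeightOneSpectrum (𝓞 F), AF p r v D (nm p r D J) := by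
      intro v
      have hco : ∀ a : F, algebraMap F (v.adicCompletion F) a = (a : v.adicCompletion F) := by
        intro a
        rw [HeightOneSpectrum.algebraMap_adicCompletion]
        rfl
      obtain ⟨-, hb⟩ := hBC p r F (v.adicCompletion F) (algebraMap F (v.adicCompletion F)) D
        (D : v.adicCompletion F) (hco D) hD
      obtain ⟨h1, h2⟩ := hb J hJ
      refine ⟨?_, _, h1, 1, one_ne_zero, ?_⟩
      · rw [← hco]
        exact (_root_.map_ne_zero _).2 hn0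
      · rw [h2, hco, one_pow, mul_one]
    have hC := hJC p r F ζ hζ D (nm p r D J) hD hAJ
    have h3 : ∃ j : ℕ, IsPow p (nm p r D J * D ^ j) := by
      by_contra h4
      push Not at h4
      exact hbad ⟨_, hC, h4⟩
    obtain ⟨j, x, hx⟩ := h3
    have ht2j : t2 p r D ^ j ≠ ⊥ := pow_ne_zero _ ht20
    have hJt : J * t2 p r D ^ j ≠ ⊥ := mul_ne_zero hJ ht2j
    have hnt : nm p r D (t2 p r D ^ j) = D ^ j := by
      clear hx ht2j hJt
      induction j with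
      | zero =>
        rw [pow_zero, pow_zero, Ideal.one_eq_top]
        exact htop
      | succ j ih => rw [pow_succ, (hmul _ _ (pow_ne_zero _ ht20) ht20).1, ih, ht2, pow_succ]
    have hx0 : x ≠ 0 := by
      rintro rfl
      rw [zero_pow hp.out.ne_zero] at hx
      exact mul_ne_zero hn0 (pow_ne_zero _ hD) hx
    have hnm : nm p r D (J * t2 p r D ^ j) = x ^ p := by
      rw [(hmul _ _ hJ ht2j).1, hnt, ← hx]
    obtain ⟨J', hJ', hsim⟩ := hINJ p r F ζ hζ1 hζ D hD _ hJt x hx0 hnm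
    have hm' := map_ne ζ hζ1 hJ'
    have hm0 : J * t2 p r D ^ j * J'.map (sg p r D ζ hζ1) ≠ ⊥ := mul_ne_zero hJt hm'
    rw [sim_iff _ _ hm0 hJ', cl_mul _ _ hJt hm' hm0, cl_mul _ _ hJ ht2j hJt, cl_pow _ ht20 _ ht2j,
      ← hg J' hJ', ← hT2] at hsim
    rw [sim_iff _ _ hI hJ] at hIJ
    refine ⟨m * j, cl J' hJ', ?_⟩
    rw [hIJ, eq_comm, mul_div_assoc', div_eq_iff_eq_mul]
    have h5 : T ^ (m * j) * T2 ^ j = 1 := by
      rw [pow_mul, ← mul_pow, hm, one_pow]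
    exact grp_lem _ _ _ _ _ hsim h5
  -- the norm
  have hB : ∀ a : ClassGroup (BQ p r D), ∏ i ∈ Finset.range p, (g^[i]) a = 1 := by
    intro a
    obtain ⟨I, hI, rfl⟩ := cl_surj a
    obtain ⟨f, hf, hprod, -⟩ := hNI p r F ζ hζ1 hζ D hD I hI
    have h1 : ∀ i : ℕ, ∃ h : I.map (sgi p r D ζ hζ1 i) ≠ ⊥,
        (g^[i]) (cl I hI) = cl (I.map (sgi p r D ζ hζ1 i)) h := by
      intro i
      induction i with
      | zero =>
        have h2 : I.map (sgi p r D ζ hζ1 0) = I := by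
          rw [sgi_zero]
          exact Ideal.map_id I
        refine ⟨by rw [h2]; exact hI, ?_⟩
        exact cl_congr h2.symm _ _
      | succ i ih =>
        obtain ⟨h2, h3⟩ := ih
        have h4 : I.map (sgi p r D ζ hζ1 (i + 1)) = (I.map (sgi p r D ζ hζ1 i)).map (sg p r D ζ hζ1) := by
          rw [sgi_succ]
          exact (Ideal.map_map _ _).symm
        refine ⟨by rw [h4]; exact map_ne ζ hζ1 h2, ?_⟩
        rw [Function.iterate_succ_apply', h3, hg]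
        exact cl_congr h4.symm _ _
    choose h2 h3 using h1
    obtain ⟨h4, h5⟩ := cl_prod (fun i => I.map (sgi p r D ζ hζ1 i)) h2 p
    rw [Finset.prod_congr rfl fun i _ => h3 i, h5]
    have h6 : Ideal.span {aeval (uu p r D) f} ≠ ⊥ := by
      rw [← hprod]
      exact h4
    rw [cl_congr hprod h4 h6]
    exact cl_span _ _
  -- the conclusion
  obtain ⟨j, b, hb⟩ := Pool.Agent.Q211.CJ.mul_lem p hp2 (ClassGroup (BQ p r D)) g T hgT hB hA
    (cl I₀ hI₀)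
  obtain ⟨J, hJ, hJb⟩ := cl_surj b
  have h1 : cl I₀ hI₀ = T ^ j * cl J hJ ^ p := by
    rw [hJb]
    exact hb
  have ht1j : t1 p r D ^ j ≠ ⊥ := pow_ne_zero _ ht10
  have hJp : J ^ p ≠ ⊥ := pow_ne_zero _ hJ
  refine ⟨j, J, hJ, ?_⟩
  rw [sim_iff _ _ hI₀ (mul_ne_zero ht1j hJp), h1, cl_mul _ _ ht1j hJp, cl_pow _ ht10 _ ht1j,
    cl_pow _ hJ _ hJp, ← hT]

end Main

end Pool.Agent.Q151.CF.Tri
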